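import Mathlib

/-!
# Binary partitions along the even indices of a nested recurrence

The sequence `w(n) = w(n - w(n - 1)) + w(n - 4)` for `n ≥ 32`, with `w(m) = 2` for `m < 0` and
suitable initial values `w(0), …, w(31)`, satisfies `w(2n) = bin(n)` for all `n ≥ 0`.  The terms with
odd index are `w(4m+1) = w(4m+3) = 2m+2`.
-/

set_option autoImplicit false

namespace Pool.Agent.Results.MP_4e7634_nt.BinaryPartitions

/-- `bin n` is the number of partitions of `n` into powers of two. -/
noncomputable def bin (n : ℕ) : ℕ := by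
  classical
  exact ((Finset.univ : Finset (Nat.Partition n)).filter
    (fun p => ∀ i ∈ p.parts, ∃ k : ℕ, i = 2 ^ k)).card

/-- The sequence `w` extended to all integers by the value `c` at the negative ones. -/
def ext (w : ℕ → ℕ) (c : ℕ) (m : ℤ) : ℤ := if m < 0 then (c : ℤ) else (w m.toNat : ℤ)

/-- The sequence `w` of positive integers is a solution of the nested recurrence
`w(n) = ∑_{u ∈ U} w(n - w(n - u)) + ∑_{v ∈ V} w(n - v)`: there are an integer `k ≥ 0` and a constant
`c ≥ 0` such that the identity holds for all `n ≥ k`, where `w(m)` is read as `c` for `m < 0`. -/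
def IsSolution (U V : List ℕ) (w : ℕ → ℕ) : Prop :=
  (∀ n, 0 < w n) ∧ ∃ k c : ℕ, ∀ n : ℕ, k ≤ n →
    (w n : ℤ) = (U.map (fun u : ℕ => ext w c ((n : ℤ) - ext w c ((n : ℤ) - (u : ℤ))))).sum +
      (V.map (fun v : ℕ => ext w c ((n : ℤ) - (v : ℤ)))).sum

/-! ### Recurrence for the number of binary partitions -/

section
open Classical

lemma bin_zero : bin 0 = 1 := by
  unfold bin
  rw [Finset.filter_true_of_mem]
  · simp
  · intro p _ i hi
    have h1 := p.parts_pos hi
    have h2 := Multiset.single_le_sum (fun _ _ => Nat.zero_le _) i hi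
    rw [p.parts_sum] at h2
    omega

lemma card_one_mem (n : ℕ) :
    ((Finset.univ : Finset (Nat.Partition (n + 1))).filter
      (fun p => (∀ i ∈ p.parts, ∃ k : ℕ, i = 2 ^ k) ∧ 1 ∈ p.parts)).card = bin n := by
  unfold bin
  refine Finset.card_bij' (fun p hp => ⟨p.parts.erase 1, ?_, ?_⟩)
    (fun p _ => ⟨1 ::ₘ p.parts, ?_, ?_⟩) ?_ ?_ ?_ ?_
  · intro i hi
    exact p.parts_pos (Multiset.mem_of_mem_erase hi)
  · rw [Finset.mem_filter] at hp
    have h1 := Multiset.cons_erase hp.2.2
    have h2 := congrArg Multiset.sum h1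
    rw [Multiset.sum_cons, p.parts_sum] at h2
    omega
  · intro i hi
    rw [Multiset.mem_cons] at hi
    rcases hi with rfl | hi
    · norm_num
    · exact p.parts_pos hi
  · rw [Multiset.sum_cons, p.parts_sum, add_comm]
  · intro p hp
    rw [Finset.mem_filter] at hp ⊢
    exact ⟨Finset.mem_univ _, fun i hi => hp.2.1 i (Multiset.mem_of_mem_erase hi)⟩
  · intro p hp
    rw [Finset.mem_filter] at hp ⊢
    refine ⟨Finset.mem_univ _, ?_, Multiset.mem_cons_self _ _⟩
    intro i hi
    rw [Multiset.mem_cons] at hi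
    rcases hi with rfl | hi
    · exact ⟨0, by norm_num⟩
    · exact hp.2 i hi
  · intro p hp
    rw [Finset.mem_filter] at hp
    apply Nat.Partition.ext
    exact Multiset.cons_erase hp.2.2
  · intro p hp
    apply Nat.Partition.ext
    exact Multiset.erase_cons_head _ _

lemma two_mul_sum (s : Multiset ℕ) : (s.map (fun i => 2 * i)).sum = 2 * s.sum := by
  rw [Multiset.sum_map_mul_left]
  simp

lemma card_one_not_mem_even (m : ℕ) :
    ((Finset.univ : Finset (Nat.Partition (2 * m))).filter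
      (fun p => (∀ i ∈ p.parts, ∃ k : ℕ, i = 2 ^ k) ∧ 1 ∉ p.parts)).card = bin m := by
  unfold bin
  have hhalf : ∀ p : Nat.Partition (2 * m), (∀ i ∈ p.parts, ∃ k : ℕ, i = 2 ^ k) → 1 ∉ p.parts →
      (p.parts.map (fun i => i / 2)).map (fun i => 2 * i) = p.parts := by
    intro p h1 h2
    rw [Multiset.map_map]
    conv_rhs => rw [← Multiset.map_id p.parts]
    refine Multiset.map_congr rfl fun i hi => ?_
    obtain ⟨k, rfl⟩ := h1 i hi
    have hk : k ≠ 0 := by
      rintro rfl
      exact h2 (by simpa using hi)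
    obtain ⟨j, rfl⟩ := Nat.exists_eq_succ_of_ne_zero hk
    simp only [Function.comp, id]
    rw [pow_succ]
    omega
  refine Finset.card_bij' (fun p hp => ⟨p.parts.map (fun i => i / 2), ?_, ?_⟩)
    (fun p _ => ⟨p.parts.map (fun i => 2 * i), ?_, ?_⟩) ?_ ?_ ?_ ?_
  · intro i hi
    rw [Finset.mem_filter] at hp
    rw [Multiset.mem_map] at hi
    obtain ⟨j, hj, rfl⟩ := hi
    obtain ⟨k, rfl⟩ := hp.2.1 j hj
    have hk : k ≠ 0 := by
      rintro rfl
      exact hp.2.2 (by simpa using hj)
    obtain ⟨l, rfl⟩ := Nat.exists_eq_succ_of_ne_zero hk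
    have : 0 < 2 ^ l := by positivity
    rw [pow_succ]
    omega
  · rw [Finset.mem_filter] at hp
    have h1 := congrArg Multiset.sum (hhalf p hp.2.1 hp.2.2)
    rw [two_mul_sum, p.parts_sum] at h1
    omega
  · intro i hi
    rw [Multiset.mem_map] at hi
    obtain ⟨j, hj, rfl⟩ := hi
    have := p.parts_pos hj
    omega
  · rw [two_mul_sum, p.parts_sum]
  · intro p hp
    rw [Finset.mem_filter] at hp ⊢
    refine ⟨Finset.mem_univ _, ?_⟩
    intro i hi
    rw [Multiset.mem_map] at hi
    obtain ⟨j, hj, rfl⟩ := hi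
    obtain ⟨k, rfl⟩ := hp.2.1 j hj
    have hk : k ≠ 0 := by
      rintro rfl
      exact hp.2.2 (by simpa using hj)
    obtain ⟨l, rfl⟩ := Nat.exists_eq_succ_of_ne_zero hk
    refine ⟨l, ?_⟩
    rw [pow_succ]
    omega
  · intro p hp
    rw [Finset.mem_filter] at hp ⊢
    refine ⟨Finset.mem_univ _, ?_, ?_⟩
    · intro i hi
      rw [Multiset.mem_map] at hi
      obtain ⟨j, hj, rfl⟩ := hi
      obtain ⟨k, rfl⟩ := hp.2 j hj
      exact ⟨k + 1, by rw [pow_succ']⟩
    · intro h
      rw [Multiset.mem_map] at h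
      obtain ⟨j, _, hj⟩ := h
      omega
  · intro p hp
    rw [Finset.mem_filter] at hp
    apply Nat.Partition.ext
    exact hhalf p hp.2.1 hp.2.2
  · intro p hp
    apply Nat.Partition.ext
    simp only [Multiset.map_map]
    conv_rhs => rw [← Multiset.map_id p.parts]
    refine Multiset.map_congr rfl fun i _ => ?_
    simp

lemma card_one_not_mem_odd (m : ℕ) :
    ((Finset.univ : Finset (Nat.Partition (2 * m + 1))).filter
      (fun p => (∀ i ∈ p.parts, ∃ k : ℕ, i = 2 ^ k) ∧ 1 ∉ p.parts)).card = 0 := by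
  rw [Finset.card_eq_zero, Finset.filter_eq_empty_iff]
  rintro p _ ⟨h1, h2⟩
  have h3 : ∀ i ∈ p.parts, 2 ∣ i := by
    intro i hi
    obtain ⟨k, rfl⟩ := h1 i hi
    have hk : k ≠ 0 := by
      rintro rfl
      exact h2 (by simpa using hi)
    exact dvd_pow_self 2 hk
  have h4 := Multiset.dvd_sum h3
  rw [p.parts_sum] at h4
  omega

lemma bin_split (n : ℕ) : bin (n + 1) = bin n +
    ((Finset.univ : Finset (Nat.Partition (n + 1))).filter
      (fun p => (∀ i ∈ p.parts, ∃ k : ℕ, i = 2 ^ k) ∧ 1 ∉ p.parts)).card := by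
  rw [← card_one_mem n]
  conv_lhs => unfold bin
  rw [← Finset.card_filter_add_card_filter_not (fun p : Nat.Partition (n + 1) => 1 ∈ p.parts),
    Finset.filter_filter, Finset.filter_filter]

end

lemma bin_odd (m : ℕ) : bin (2 * m + 1) = bin (2 * m) := by
  rw [bin_split, card_one_not_mem_odd, add_zero]

lemma bin_even (m : ℕ) : bin (2 * (m + 1)) = bin (2 * m) + bin (m + 1) := by
  have h : 2 * (m + 1) = (2 * m + 1) + 1 := by ring
  have h2 := bin_split (2 * m + 1)
  rw [bin_odd] at h2
  have h3 := card_one_not_mem_even (m + 1)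
  rw [← h3, h]
  exact h2

lemma bin_pos (n : ℕ) : 0 < bin n := by
  induction n with
  | zero => rw [bin_zero]; norm_num
  | succ n ih => rw [bin_split]; omega

lemma bin_mono : Monotone bin := monotone_nat_of_le_succ fun n => by rw [bin_split]; omega

lemma bin_values : bin 4 = 4 ∧ bin 16 = 36 := by
  have h0 := bin_zero
  have h1 : bin 1 = 1 := by have := bin_odd 0; simpa [h0] using this
  have h2 : bin 2 = 2 := by have := bin_even 0; simpa [h0, h1] using this
  have h3 : bin 3 = 2 := by have := bin_odd 1; simpa [h2] using this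
  have h4 : bin 4 = 4 := by have := bin_even 1; simpa [h2] using this
  have h5 : bin 5 = 4 := by have := bin_odd 2; simpa [h4] using this
  have h6 : bin 6 = 6 := by have := bin_even 2; simpa [h4, h3] using this
  have h7 : bin 7 = 6 := by have := bin_odd 3; simpa [h6] using this
  have h8 : bin 8 = 10 := by have := bin_even 3; simpa [h6, h4] using this
  have h10 : bin 10 = 14 := by have := bin_even 4; simpa [h8, h5] using this
  have h12 : bin 12 = 20 := by have := bin_even 5; simpa [h10, h6] using this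
  have h14 : bin 14 = 26 := by have := bin_even 6; simpa [h12, h7] using this
  have h16 : bin 16 = 36 := by have := bin_even 7; simpa [h14, h8] using this
  exact ⟨h4, h16⟩

lemma bin_large (m : ℕ) : 4 * (m + 8) + 4 ≤ bin (2 * (m + 8)) := by
  induction m with
  | zero => rw [show 2 * (0 + 8) = 16 by norm_num, bin_values.2]
  | succ m ih =>
    have h1 := bin_even (m + 8)
    have h2 : bin 4 ≤ bin (m + 8 + 1) := bin_mono (by omega)
    rw [bin_values.1] at h2
    rw [show m + 1 + 8 = m + 8 + 1 by ring, h1]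
    omega

/-- the solution -/
noncomputable def w (n : ℕ) : ℕ := if n % 2 = 0 then bin (n / 2) else 2 * (n / 4) + 2

lemma w_even (n : ℕ) : w (2 * n) = bin n := by
  unfold w
  rw [if_pos (by omega), Nat.mul_div_cancel_left _ (by norm_num)]

lemma w_one (m : ℕ) : w (4 * m + 1) = 2 * m + 2 := by
  unfold w
  rw [if_neg (by omega)]
  omega

lemma w_three (m : ℕ) : w (4 * m + 3) = 2 * m + 2 := by
  unfold w
  rw [if_neg (by omega)]
  omega

lemma ext_nat (w : ℕ → ℕ) (c n : ℕ) {z : ℤ} (h : z = n) : ext w c z = w n := by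
  unfold ext
  rw [if_neg (by omega), h, Int.toNat_natCast]

lemma ext_neg (w : ℕ → ℕ) (c : ℕ) {z : ℤ} (h : z < 0) : ext w c z = c := by
  unfold ext
  rw [if_pos h]

lemma w_rec (n : ℕ) (hn : 32 ≤ n) :
    (w n : ℤ) = ext w 2 ((n : ℤ) - ext w 2 ((n : ℤ) - 1)) + ext w 2 ((n : ℤ) - 4) := by
  obtain ⟨m, rfl | rfl | rfl | rfl⟩ : ∃ m, n = 4 * m ∨ n = 4 * m + 1 ∨ n = 4 * m + 2 ∨
      n = 4 * m + 3 := ⟨n / 4, by omega⟩
  · obtain ⟨j, rfl⟩ : ∃ j, m = j + 1 := ⟨m - 1, by omega⟩
    rw [ext_nat w 2 (4 * j + 3) (z := ((4 * (j + 1) : ℕ) : ℤ) - 1) (by push_cast; ring), w_three,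
      ext_nat w 2 (2 * (j + 1)) (by push_cast; ring),
      ext_nat w 2 (2 * (2 * j)) (by push_cast; ring),
      show 4 * (j + 1) = 2 * (2 * (j + 1)) by ring, w_even, w_even, w_even, bin_even]
    push_cast
    ring
  · obtain ⟨j, rfl⟩ : ∃ j, m = j + 8 := ⟨m - 8, by omega⟩
    have h1 := bin_large j
    rw [ext_nat w 2 (2 * (2 * (j + 8))) (z := ((4 * (j + 8) + 1 : ℕ) : ℤ) - 1)
      (by push_cast; ring), w_even,
      ext_neg w 2 (by push_cast; omega), w_one,
      ext_nat w 2 (4 * (j + 7) + 1) (by push_cast; ring), w_one]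
    push_cast
    ring
  · obtain ⟨j, rfl⟩ : ∃ j, m = j + 1 := ⟨m - 1, by omega⟩
    rw [ext_nat w 2 (4 * (j + 1) + 1) (z := ((4 * (j + 1) + 2 : ℕ) : ℤ) - 1)
      (by push_cast; ring), w_one,
      ext_nat w 2 (2 * (j + 1)) (by push_cast; ring),
      ext_nat w 2 (2 * (2 * j + 1)) (by push_cast; ring),
      show 4 * (j + 1) + 2 = 2 * (2 * (j + 1) + 1) by ring, w_even, w_even, w_even, bin_odd,
      bin_odd, bin_even]
    push_cast
    ring
  · obtain ⟨j, rfl⟩ : ∃ j, m = j + 8 := ⟨m - 8, by omega⟩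
    have h1 := bin_large j
    have h2 := bin_odd (j + 8)
    rw [ext_nat w 2 (2 * (2 * (j + 8) + 1)) (z := ((4 * (j + 8) + 3 : ℕ) : ℤ) - 1)
      (by push_cast; ring), w_even, bin_odd,
      ext_neg w 2 (by push_cast; omega), w_three,
      ext_nat w 2 (4 * (j + 7) + 3) (by push_cast; ring), w_three]
    push_cast
    ring

lemma w_pos (n : ℕ) : 0 < w n := by
  unfold w
  split_ifs
  · exact bin_pos _
  · omega

/-- **Theorem.** There are a sequence `w` of positive integers which is a solution of the nested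
recurrence `w(n) = w(n - w(n - 1)) + w(n - 4)` (that is `p = q = 1`, `u_1 = 1`, `v_1 = 4`) and an
arithmetic progression, namely `2 n`, with `w(2 n) = bin(n)` for all `n ≥ 0`. -/
theorem result : ∃ w : ℕ → ℕ, IsSolution [1] [4] w ∧ ∀ n : ℕ, w (2 * n + 0) = bin n := by
  refine ⟨w, ⟨w_pos, 32, 2, fun n hn => ?_⟩, w_even⟩
  have := w_rec n hn
  simpa using this

end Pool.Agent.Results.MP_4e7634_nt.BinaryPartitions
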